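import Mathlib
import Pool.Agent.W425.BF.Stm

/-!
Assembly of (COMB).
-/

set_option autoImplicit false

namespace Pool.Agent.W33.BF

open Finset Pool.Agent.W425.BF
open Pool.Agent.W426.SM (gord face IsRay)
open Pool.Agent.W803.SM (filt)

theorem gord_pos {n k : ℕ} (m : Fin k → Fin n → ℕ) (i : Fin n) (a : Fin n → ℕ)
    (h : Rem m i a) : 0 < gord m a := by
  obtain ⟨⟨hai, j0, hf, hj0, _⟩, _⟩ := h
  have h1 : ∑ x, a x * m j0 x = gord m a := hf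
  rw [← h1]
  have h2 : a i * m j0 i ≤ ∑ x, a x * m j0 x :=
    single_le_sum (f := fun x => a x * m j0 x) (fun _ _ => Nat.zero_le _) (mem_univ i)
  rw [hj0, mul_one] at h2
  omega

theorem W2_ne {n : ℕ} (p : ℕ) (hp : 2 ≤ p) (c : Fin n → ℕ) (N : ℕ) (hN : 0 < N) (t : ℂ)
    (ht : ‖t‖ < 1) (u : Fin n → ℕ) : 1 - W2 p c N 1 t u ≠ 0 := by
  intro h0
  have h4 : W2 p c N 1 t u = 1 := (sub_eq_zero.mp h0).symm
  have h5 : ‖W2 p c N 1 t u‖ < 1 := by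
    unfold W2
    rw [one_pow, mul_one, norm_mul, norm_pow, norm_pow]
    have a0 : ‖(p : ℂ)⁻¹‖ ≤ 1 := by
      rw [norm_inv, Complex.norm_natCast]
      apply inv_le_one_of_one_le₀
      have : 1 ≤ p := by omega
      exact_mod_cast this
    have a1 : ‖(p : ℂ)⁻¹‖ ^ (∑ x, u x) ≤ 1 := pow_le_one₀ (norm_nonneg _) a0
    have a2 : ‖t‖ ^ N < 1 := pow_lt_one₀ (norm_nonneg _) ht hN.ne'
    calc ‖(p : ℂ)⁻¹‖ ^ (∑ x, u x) * ‖t‖ ^ N ≤ 1 * ‖t‖ ^ N :=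
          mul_le_mul_of_nonneg_right a1 (by positivity)
      _ < 1 := by
          rw [one_mul]
          exact a2
  rw [h4, norm_one] at h5
  exact lt_irrefl _ h5

theorem main : TaskCOMBA := by
  classical
  intro hI hII hALG n k m i hk
  obtain ⟨T₁, ray₁, hray₁, h1⟩ := hI m hk
  obtain ⟨T₂, ray₂, N₂, hray₂, h2⟩ := hII m i hk
  let R : Finset (Fin T₁) := univ.filter (fun q => Rem m i (ray₁ q))
  have hRmem : ∀ q, q ∈ R ↔ Rem m i (ray₁ q) := by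
    intro q
    simp [R]
  have hRpos : ∀ q ∈ R, 0 < gord m (ray₁ q) := fun q hq => gord_pos m i _ ((hRmem q).mp hq)
  obtain ⟨c, hc, h3⟩ := hALG i ray₁ (fun q => gord m (ray₁ q)) ray₂ N₂ R hRpos
    (fun q' => (hray₂ q').1) (fun q hq q' => (hray₂ q').2 (ray₁ q) ((hRmem q).mp hq))
  refine ⟨(Rᶜ).card, fun q => ray₁ ((Rᶜ).equivFin.symm q).1, ?_, ?_⟩
  · intro q
    refine ⟨hray₁ _, ?_⟩
    have h4 := ((Rᶜ).equivFin.symm q).2
    rw [mem_compl, hRmem] at h4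
    exact h4
  · intro p hp E γ hrel
    obtain ⟨A, hA⟩ := h1 p hp c γ
    obtain ⟨B, hB⟩ := h2 p hp c hc E γ hrel
    obtain ⟨A', hA'⟩ := h3 p hp A B (by
      intro z t hz ht
      rw [← hA z t hz ht, ← hB z t hz ht]
      ring)
    refine ⟨A', fun t ht => ?_⟩
    have e1 := hA 1 t (by simp) ht.le
    rw [hA' t] at e1
    have e2 := prod_mul_prod_compl R
      (fun q => 1 - W2 p c (gord m (ray₁ q)) 1 t (ray₁ q))
    rw [← e2] at e1
    have e3 : ∏ q ∈ R, (1 - W2 p c (gord m (ray₁ q)) 1 t (ray₁ q)) ≠ 0 :=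
      prod_ne_zero_iff.mpr (fun q hq => W2_ne p hp c _ (hRpos q hq) t ht _)
    have e4 : Gz m γ p c 1 t *
        ∏ q ∈ Rᶜ, (1 - W2 p c (gord m (ray₁ q)) 1 t (ray₁ q)) = A'.eval t := by
      apply mul_right_cancel₀ e3
      rw [← e1]
      ring
    have e5 : Gz m γ p c 1 t =
        ∑' u : Fin n → ℕ, (p : ℂ)⁻¹ ^ (∑ x, u x) * t ^ gord m u * (γ (filt m u)).eval t := by
      unfold Gz W2
      simp only [one_pow, mul_one]
    have e6 : ∏ q : Fin (Rᶜ).card, (1 - (p : ℂ)⁻¹ ^ (∑ x, ray₁ ((Rᶜ).equivFin.symm q).1 x) *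
        t ^ gord m (ray₁ ((Rᶜ).equivFin.symm q).1)) =
        ∏ q ∈ Rᶜ, (1 - W2 p c (gord m (ray₁ q)) 1 t (ray₁ q)) := by
      rw [← prod_coe_sort (Rᶜ) (fun q => 1 - W2 p c (gord m (ray₁ q)) 1 t (ray₁ q))]
      rw [← Equiv.prod_comp (Rᶜ).equivFin.symm
        (fun q => 1 - W2 p c (gord m (ray₁ q.1)) 1 t (ray₁ q.1))]
      apply prod_congr rfl
      intro q _
      unfold W2
      rw [one_pow, mul_one]
    rw [← e5]
    show _ * ∏ q : Fin (Rᶜ).card, (1 - (p : ℂ)⁻¹ ^ (∑ x, ray₁ ((Rᶜ).equivFin.symm q).1 x) *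
        t ^ gord m (ray₁ ((Rᶜ).equivFin.symm q).1)) = _
    rw [e6]
    exact e4

end Pool.Agent.W33.BF
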